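import Pool.Agent.Y331.EP.Trans

set_option autoImplicit false

open scoped Manifold ContDiff Topology
open Set Filter

namespace Pool.Agent.Results.MP_5c499f_an.EntropyRigidity

open Pool.Agent.H721R2 Pool.Agent.H789R2.AN Pool.Agent.TH289 Pool.Agent.TH289.K
open Pool.Agent.Y331.EP

/-- **Entropy rigidity over Anosov diffeomorphisms with global product structure.**
Let `g` be a `C¹` Anosov diffeomorphism of a closed connected manifold `M'` with global product
structure (`GPS`: each stable path and each unstable path with the same initial point span a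
rectangle; for instance a hyperbolic automorphism of an infranilmanifold).  Let `f` be any `C¹`
Anosov diffeomorphism of a closed connected manifold `M` with `dim M' ≤ dim M`, and let `h` be a
continuous map of `M` onto `M'` with `h ∘ f = g ∘ h`.  Then the following are equivalent.
* `f` is topologically transitive, and `f` and `g` have the same topological entropy
  (`h_top(f) ≤ h_top(g)`; the opposite inequality always holds).
* `f` is topologically transitive, and there is a constant `C` with `#Fix(fⁿ) ≤ C · #Fix(gⁿ)` for
  infinitely many `n`.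
* Every fibre of `h` is countable.
* There is a bound `B` such that, for every `x`, at most `B` points that are both forward and
  backward asymptotic to `x` under `f` have the same image as `x`.
* `h` is a covering map.
* `h` is a covering map with finite fibres (so `f` is a lift of `g` to a finite cover of `M'`), and
  `f` has global product structure. -/
theorem result (E : Type*) [NormedAddCommGroup E] [NormedSpace ℝ E] [FiniteDimensional ℝ E]
    (M : Type*) [MetricSpace M] [CompactSpace M] [ConnectedSpace M]
    [ChartedSpace E M] [IsManifold 𝓘(ℝ, E) ∞ M] (f : Diffeomorph 𝓘(ℝ, E) 𝓘(ℝ, E) M M 1)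
    (Es Eu : ∀ x : M, Submodule ℝ (TangentSpace 𝓘(ℝ, E) x)) (hf : IsAnosov f Es Eu)
    (E' : Type*) [NormedAddCommGroup E'] [NormedSpace ℝ E'] [FiniteDimensional ℝ E']
    (M' : Type*) [MetricSpace M'] [CompactSpace M'] [ConnectedSpace M']
    [ChartedSpace E' M'] [IsManifold 𝓘(ℝ, E') ∞ M'] (g : Diffeomorph 𝓘(ℝ, E') 𝓘(ℝ, E') M' M' 1)
    (Es' Eu' : ∀ x : M', Submodule ℝ (TangentSpace 𝓘(ℝ, E') x)) (hg : IsAnosov g Es' Eu')
    (hG : GPS g.toHomeomorph) (hdim : Module.finrank ℝ E' ≤ Module.finrank ℝ E)
    (h : C(M, M')) (hs : Function.Surjective h) (hfg : ∀ x, h (f x) = g (h x)) :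
    List.TFAE [TopTransitive f ∧ Dynamics.coverEntropy f univ ≤ Dynamics.coverEntropy g univ,
      TopTransitive f ∧ ∃ C : ℕ, ∃ᶠ n in atTop,
        {x | f^[n] x = x}.ncard ≤ C * {y | g^[n] y = y}.ncard,
      ∀ y, (h ⁻¹' {y}).Countable,
      ∃ B : ℕ, ∀ x, {y | h y = h x ∧ Asym f x y ∧ Asym f.symm x y}.encard ≤ B,
      IsCoveringMap h,
      IsCoveringMap h ∧ (∀ y, (h ⁻¹' {y}).Finite) ∧ GPS f.toHomeomorph] :=
  man_over' f Es Eu hf g Es' Eu' hg hG hdim h h.continuous hs hfg

end Pool.Agent.Results.MP_5c499f_an.EntropyRigidity
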