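import Pool.Agent.Y331.EP.Trans

set_option autoImplicit false

open scoped Manifold ContDiff Topology
open Set Filter

namespace Pool.Agent.Results.MP_5c499f_an.OpenFactorCovering

open Pool.Agent.H721R2 Pool.Agent.H789R2.AN Pool.Agent.TH289 Pool.Agent.TH289.K
open Pool.Agent.Y331.EP

/-- **Open factors of Anosov diffeomorphisms without loss of entropy are finite coverings.**
Let `f` be a `C¹` Anosov diffeomorphism of a closed connected manifold `M`, let `g` be an expansive,
topologically transitive homeomorphism of a compact metric space `Y` (for instance a transitive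
Anosov diffeomorphism), and let `h` be a continuous open map of `M` onto `Y` with `h ∘ f = g ∘ h`
(for instance a bundle projection).  No relation between dimensions and no global product structure
is assumed, and `f` is not assumed to be transitive.  Then the following are equivalent.
* `f` is topologically transitive and `h_top(f) ≤ h_top(g)` (so the entropies are equal).
* `f` is topologically transitive, and there is a constant `C` with `#Fix(fⁿ) ≤ C · #Fix(gⁿ)` for
  infinitely many `n`.
* `f` is topologically transitive, and every fibre of `h` is countable.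
* `h` takes different values at two different points that are both forward and backward asymptotic
  under `f`.
* There is a bound `B` such that, for every `x`, at most `B` points that are both forward and
  backward asymptotic to `x` under `f` have the same image as `x`.
* `h` is a covering map.
* `f` is topologically transitive, and `h` is a covering map with finite fibres. -/
theorem result (E : Type*) [NormedAddCommGroup E] [NormedSpace ℝ E] [FiniteDimensional ℝ E]
    (M : Type*) [MetricSpace M] [CompactSpace M] [ConnectedSpace M]
    [ChartedSpace E M] [IsManifold 𝓘(ℝ, E) ∞ M] (f : Diffeomorph 𝓘(ℝ, E) 𝓘(ℝ, E) M M 1)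
    (Es Eu : ∀ x : M, Submodule ℝ (TangentSpace 𝓘(ℝ, E) x)) (hf : IsAnosov f Es Eu)
    (Y : Type*) [MetricSpace Y] [CompactSpace Y] (g : Y ≃ₜ Y) (hg : Expansive g)
    (ht : TopTransitive g) (h : C(M, Y)) (hopen : IsOpenMap h) (hs : Function.Surjective h)
    (hfg : ∀ x, h (f x) = g (h x)) :
    List.TFAE [TopTransitive f ∧ Dynamics.coverEntropy f univ ≤ Dynamics.coverEntropy g univ,
      TopTransitive f ∧ ∃ C : ℕ, ∃ᶠ n in atTop,
        {x | f^[n] x = x}.ncard ≤ C * {y | g^[n] y = y}.ncard,
      TopTransitive f ∧ ∀ y, (h ⁻¹' {y}).Countable,
      ∀ x y, h x = h y → Asym f x y → Asym f.symm x y → x = y,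
      ∃ B : ℕ, ∀ x, {y | h y = h x ∧ Asym f x y ∧ Asym f.symm x y}.encard ≤ B,
      IsCoveringMap h,
      TopTransitive f ∧ IsCoveringMap h ∧ ∀ y, (h ⁻¹' {y}).Finite] :=
  man_open_trans f Es Eu hf g hg ht h h.continuous hopen hs hfg

end Pool.Agent.Results.MP_5c499f_an.OpenFactorCovering
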