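import Pool.Agent.Y330.N.B6

set_option autoImplicit false

open scoped Manifold ContDiff Topology Pointwise
open Set Filter

namespace Pool.Agent.Results.MP_5c499f_an.QuasiMoebiusLeafGrowth

open Pool.Agent.H721R2 Pool.Agent.H789R2.AN Pool.Agent.Y330.N Pool.Agent.Y330.H
open Pool.Agent.TH289.K

/-- **Anosov diffeomorphisms with quasi-Möbius holonomies along one leaf, or with weakly
quasisymmetric holonomies.**
Let `f` be a `C¹` Anosov diffeomorphism of a closed connected manifold `M` modelled on the
finite-dimensional space `E`.  There is a neighbourhood `𝒰₀` of the diagonal of `M × M` such that the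
following holds for every neighbourhood `𝒰` of the diagonal contained in `𝒰₀` and for `g = f` or
`g = f⁻¹`.

(1) The following conditions are equivalent.
* The stable holonomies of `g` are uniformly bounded (`BoundedHolonomy g 𝒰`): for some `k` they
  increase the levels by at most `k`.  (Here the level of two points of an unstable leaf is at most
  `i` if `g⁻ⁿ x` and `g⁻ⁿ y` are `𝒰`-close for all integers `n ≥ i`, `ZLevel`; it is a dynamical
  version of the logarithm of the distance in the unstable leaf.)
* For ONE point `p`, the holonomies along the stable leaf of `p` are uniformly (weakly) quasi-Möbius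
  (`QuasiMoebiusAlong g 𝒰 p`): for every `i` there is `k` such that, if `x`, `y`, `z`, `w` are stable
  paths of whatever length, `x s`, `y s`, `z s`, `w s` lie in the same unstable leaf, `x` is a path
  in the stable leaf of `p` and the cross ratio of `x 0`, `y 0`, `z 0`, `w 0` is at most `i`, then
  that of `x 1`, `y 1`, `z 1`, `w 1` is at most `k` (`CrossRatioLE`; the cross ratios are defined
  with the levels).
* This is so for every point `p`.
* The stable holonomies of `g` are uniformly weakly quasisymmetric (`QuasisymmetricHolonomy g 𝒰`):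
  for each `i` there is `k` such that, if the stable holonomy along a stable path from `x` to `x'`,
  of whatever length, takes `y` to `y'` and `z` to `z'` (corners of two rectangles, `Rectangle`, over
  the given stable path), where the level of `x`, `y` is at most `0`, the level of `x`, `z` is
  greater than `0` and the level of `x'`, `z'` is at most `i`, then the level of `x'`, `y'` is at
  most `k`.

(2) If they hold then `f` is topologically transitive, it has global product structure (`GPS`), there
is a surjective covering map `E → M`, where `E ≅ ℝⁿ`, `n = dim M`, and the fundamental group of `M`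
has polynomial growth: there is an exponent `d` such that for every finite set `S` of elements of
`π₁(M, x)` the number of products of `n` elements of `S` is at most `C (n + 1) ^ d`, `C = C(S)`. -/
theorem result (E : Type*) [NormedAddCommGroup E] [NormedSpace ℝ E] [FiniteDimensional ℝ E]
    (M : Type*) [TopologicalSpace M] [T2Space M] [CompactSpace M] [ConnectedSpace M]
    [ChartedSpace E M] [IsManifold 𝓘(ℝ, E) ∞ M] (f : Diffeomorph 𝓘(ℝ, E) 𝓘(ℝ, E) M M 1)
    (Es Eu : ∀ x : M, Submodule ℝ (TangentSpace 𝓘(ℝ, E) x)) (hA : IsAnosov f Es Eu) :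
    ∃ 𝒰₀ ∈ 𝓝ˢ (diagonal M), ∀ 𝒰 ∈ 𝓝ˢ (diagonal M), 𝒰 ⊆ 𝒰₀ →
      ∀ g : M ≃ₜ M, (g = f.toHomeomorph ∨ g = f.toHomeomorph.symm) →
      List.TFAE [BoundedHolonomy g 𝒰, ∃ p : M, QuasiMoebiusAlong g 𝒰 p,
        ∀ p : M, QuasiMoebiusAlong g 𝒰 p, QuasisymmetricHolonomy g 𝒰] ∧
      (BoundedHolonomy g 𝒰 → TopTransitive f ∧ GPS f.toHomeomorph ∧
        (∃ π : E → M, IsCoveringMap π ∧ Function.Surjective π) ∧
        ∃ d : ℕ, ∀ (x : M) (S : Set (FundamentalGroup M x)), S.Finite →
          ∃ C : ℕ, ∀ n : ℕ, (S ^ n).ncard ≤ C * (n + 1) ^ d) := by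
  obtain ⟨𝒰₀, h1, h2⟩ := man_final f Es Eu hA
  refine ⟨𝒰₀, h1, fun 𝒰 h𝒰 hsub g hg => ?_⟩
  obtain ⟨a1, a2, a3⟩ := h2 𝒰 h𝒰 hsub g hg
  refine ⟨?_, a3⟩
  have hne : Nonempty M := inferInstance
  tfae_have 1 → 3 := fun h p => (a2 p).2 h
  tfae_have 3 → 2 := fun h => ⟨hne.some, h _⟩
  tfae_have 2 → 1 := fun ⟨p, hp⟩ => (a2 p).1 hp
  tfae_have 4 ↔ 1 := a1
  tfae_finish

end Pool.Agent.Results.MP_5c499f_an.QuasiMoebiusLeafGrowth
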